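import Pool.Agent.T6.H3.LF.Rank
import Pool.Agent.R347.LW.Ex2

/-!
# The field of approximable numbers: definitions

Let `q_0, q_1, …` be a sequence of integers `≥ 2`, and let `tower h` be the `h`-fold iterate of `n ↦ 2 ^ n`.
A complex number is *approximable* if, for some `h` and every `κ`, for all large `k` it has an algebraic
approximation of degree at most `tower h (q_k)`, with a polynomial over `ℤ` with coefficients of absolute value
at most `tower h (q_k)`, and with an error of at most `1 / tower κ (q_k)`. A real number is *rationally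
approximable* if the approximations can be chosen in `ℚ`, with denominators at most `tower h (q_k)`.
-/

set_option autoImplicit false

namespace Pool.Agent.T6.H3.LF

/-- The `h`-fold iterate of `n ↦ 2 ^ n`. -/
def tower : ℕ → ℕ → ℕ
  | 0, q => q
  | h + 1, q => 2 ^ tower h q

/-- `a` is a zero of a nonzero polynomial over `ℤ` of degree at most `N` whose coefficients have absolute
value at most `N`. -/
def Bounded (N : ℕ) (a : ℂ) : Prop :=
  ∃ P : Polynomial ℤ, P ≠ 0 ∧ P.natDegree ≤ N ∧ (∀ n, |P.coeff n| ≤ N) ∧ Polynomial.aeval a P = 0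

/-- For some `h` and every `κ`, for all large `k` the number `z` has an algebraic approximation of
complexity at most `tower h (q k)` and with an error of at most `1 / tower κ (q k)`. -/
def Approximable (q : ℕ → ℕ) (z : ℂ) : Prop :=
  ∃ h : ℕ, ∀ κ : ℕ, ∃ k₀ : ℕ, ∀ k ≥ k₀, ∃ a : ℂ, Bounded (tower h (q k)) a ∧
    ‖z - a‖ ≤ ((tower κ (q k) : ℕ) : ℝ)⁻¹

/-- For some `h` and every `κ`, for all large `k` the real number `x` has a rational approximation with a
denominator at most `tower h (q k)` and with an error of at most `1 / tower κ (q k)`. -/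
def RationallyApproximable (q : ℕ → ℕ) (x : ℝ) : Prop :=
  ∃ h : ℕ, ∀ κ : ℕ, ∃ k₀ : ℕ, ∀ k ≥ k₀, ∃ (u : ℤ) (v : ℕ), 1 ≤ v ∧ v ≤ tower h (q k) ∧
    |x - u / v| ≤ ((tower κ (q k) : ℕ) : ℝ)⁻¹

/-- The exponents `e_0 = 1`, `e_(k + 1) = tower (k + 2) (e_k)`. -/
def e : ℕ → ℕ
  | 0 => 1
  | k + 1 => tower (k + 2) (e k)

/-- The explicit sequence `q_k = 2 ^ e_k`. -/
def q₀ (k : ℕ) : ℕ := 2 ^ e k

/-- The sum of the numbers `1 / q_k` over the elements `k` of the set `A`. -/
noncomputable def number (A : Set ℕ) : ℝ :=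
  ∑' k, Set.indicator A (fun k => 1 / (q₀ k : ℝ)) k

/-- `K` is the field of the approximable numbers, and `R` the field of the rationally approximable real
numbers, for the sequence `q`; `K` is algebraically closed and contains `R`. -/
def Fields (q : ℕ → ℕ) (K : IntermediateField ℚ ℂ) (R : IntermediateField ℚ ℝ) : Prop :=
  (∀ z, z ∈ K ↔ Approximable q z) ∧ (∀ x, x ∈ R ↔ RationallyApproximable q x) ∧ IsAlgClosed K ∧
    ∀ x ∈ R, (x : ℂ) ∈ K

/-- the explicit sequence: `K` is as large as possible -/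
def Explicit : Prop :=
  (∀ k, 2 ≤ q₀ k) ∧ (∀ A : Set ℕ, RationallyApproximable q₀ (number A)) ∧ Function.Injective number ∧
    ∀ K : IntermediateField ℚ ℂ, (∀ z, z ∈ K ↔ Approximable q₀ z) →
      Algebra.trdeg ℚ K = Cardinal.continuum

theorem tower_eq : tower = Pool.Agent.R347.LW.tow := by
  funext h q
  induction h with
  | zero => rfl
  | succ h ih => rw [tower, Pool.Agent.R347.LW.tow, ih]

theorem approximable_iff (q : ℕ → ℕ) (z : ℂ) : Approximable q z ↔ Pool.Agent.R347.LW.Appr q z := by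
  unfold Approximable Pool.Agent.R347.LW.Appr
  rw [tower_eq]
  rfl

theorem rationallyApproximable_iff (q : ℕ → ℕ) (x : ℝ) :
    RationallyApproximable q x ↔ Pool.Agent.R347.LW.RAppr q x := by
  unfold RationallyApproximable Pool.Agent.R347.LW.RAppr
  rw [tower_eq]

theorem e_eq : e = Pool.Agent.R347.LW.eT := by
  funext k
  induction k with
  | zero => rfl
  | succ k ih => rw [e, Pool.Agent.R347.LW.eT, ih, tower_eq]

theorem q₀_eq : q₀ = Pool.Agent.R347.LW.qT := by
  funext k
  rw [q₀, Pool.Agent.R347.LW.qT, e_eq]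

theorem number_eq : number = Pool.Agent.R347.LW.xiT := by
  funext A
  rw [number, Pool.Agent.R347.LW.xiT]
  refine tsum_congr fun k => ?_
  have h1 : 1 / (q₀ k : ℝ) = (1 / 2 : ℝ) ^ Pool.Agent.R347.LW.eT k := by
    rw [q₀, e_eq]
    push_cast
    rw [one_div, one_div, inv_pow]
  by_cases h : k ∈ A
  · rw [Set.indicator_of_mem h, Pool.Agent.R347.LW.trT_of_mem h, h1]
  · rw [Set.indicator_of_notMem h, Pool.Agent.R347.LW.trT_of_notMem h]

theorem explicit : Explicit := by
  refine ⟨?_, fun A => ?_, ?_, fun K hK => ?_⟩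
  · intro k
    rw [q₀_eq]
    exact Pool.Agent.R347.LW.two_le_qT k
  · rw [rationallyApproximable_iff, q₀_eq, number_eq]
    exact Pool.Agent.R347.LW.xiT_rappr A
  · rw [number_eq]
    exact Pool.Agent.R347.LW.xiT_injective
  · have h1 : K = Pool.Agent.R347.LW.UK Pool.Agent.R347.LW.two_le_qT := by
      ext z
      rw [hK, approximable_iff, q₀_eq]
      rfl
    rw [h1]
    exact Pool.Agent.R347.LW.UK_trdeg _

theorem fields {q : ℕ → ℕ} (hq : ∀ k, 2 ≤ q k) :
    Fields q (Pool.Agent.R347.LW.UK hq) (Pool.Agent.R347.LW.UR hq) :=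
  ⟨fun z => (approximable_iff q z).symm, fun x => (rationallyApproximable_iff q x).symm,
    Pool.Agent.R347.LW.UK_closed hq, fun _ hx => Pool.Agent.R347.LW.RAppr.appr hq hx⟩

/-- `n ^ s = e ^ (s log n)` -/
theorem natCast_cpow {n : ℕ} (hn : 1 ≤ n) (x : ℂ) :
    (n : ℂ) ^ x = Complex.exp (x * ((Real.log n : ℝ) : ℂ)) := by
  rw [Complex.cpow_def_of_ne_zero (by exact_mod_cast (by omega : n ≠ 0)), Complex.natCast_log,
    mul_comm]

end Pool.Agent.T6.H3.LF
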