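import Pool.Agent.T6.H3.LF.Defs
import Pool.Agent.R347.BE.Cor

/-!
# Exponents which are polynomials in a number which is nowhere well approximable
-/

set_option autoImplicit false

namespace Pool.Agent.T6.H3.LF

open Finset
open Pool.Agent.R347.LW Pool.Agent.R347.SX

/-- `t` is not approximable for any sequence of integers `≥ 2`. -/
def Far (t : ℂ) : Prop := ∀ q : ℕ → ℕ, (∀ k, 2 ≤ q k) → ¬ Approximable q t

theorem far_iff (t : ℂ) : Far t ↔ Pool.Agent.R347.SX.Far t := by
  unfold Far Pool.Agent.R347.SX.Far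
  simp only [approximable_iff]

theorem far_pi : Far ((Real.pi : ℝ) : ℂ) := (far_iff _).2 Pool.Agent.R347.SX.far_pi

theorem far_exp {α : ℂ} (hα : IsAlgebraic ℚ α) (h0 : α ≠ 0) : Far (Complex.exp α) := by
  rw [far_iff]
  intro q hq h
  have hcl := UK_closed hq
  have hmem : Appr q α := by
    obtain ⟨P, hP, hPα⟩ := (IsFractionRing.isAlgebraic_iff ℤ ℚ ℂ).2 hα
    exact Appr.ofAlg hq P hP hPα
  have h1 := algIndU hq 1 (fun _ => (⟨α, hmem⟩ : UK hq)) (by
    rw [linearIndependent_unique_iff]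
    intro h2
    exact h0 (congrArg Subtype.val h2))
  refine h1.transcendental 0 ?_
  have h3 : Complex.exp (((⟨α, hmem⟩ : UK hq) : ℂ)) = algebraMap (UK hq) ℂ ⟨Complex.exp α, h⟩ := rfl
  rw [h3]
  exact isAlgebraic_algebraMap _

theorem far_log {p : ℕ} (hp : p.Prime) : Far ((Real.log p : ℝ) : ℂ) := by
  rw [far_iff]
  intro q hq
  exact Pool.Agent.R347.BE.log_notMem hq hp

theorem mem_of_isAlgebraic {q : ℕ → ℕ} (hq : ∀ k, 2 ≤ q k) {z : ℂ} (hz : IsAlgebraic (UK hq) z) :
    Appr q z := by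
  have := UK_closed hq
  have hint : IsIntegral (UK hq) z := isAlgebraic_iff_isIntegral.1 hz
  have h1 := IsAlgClosed.degree_eq_one_of_irreducible (UK hq) (minpoly.irreducible hint)
  obtain ⟨w, hw⟩ := minpoly.mem_range_of_degree_eq_one (UK hq) z h1
  have h2 : (w : ℂ) = z := hw
  rw [← h2]
  exact w.2

theorem far_of_isAlgebraic {t u : ℂ} (ht : Far t)
    (h : IsAlgebraic (IntermediateField.adjoin ℚ {u}) t) : Far u := by
  rw [far_iff] at ht ⊢
  intro q hq hu
  apply ht q hq
  apply mem_of_isAlgebraic hq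
  have hle : IntermediateField.adjoin ℚ {u} ≤ UK hq := by
    rw [IntermediateField.adjoin_le_iff, Set.singleton_subset_iff]
    exact hu
  let _ : Algebra (IntermediateField.adjoin ℚ {u}) (UK hq) :=
    (IntermediateField.inclusion hle).toRingHom.toAlgebra
  have : IsScalarTower (IntermediateField.adjoin ℚ {u}) (UK hq) ℂ :=
    IsScalarTower.of_algebraMap_eq (fun x => rfl)
  exact h.extendScalars (FaithfulSMul.algebraMap_injective _ _)

/-- the polynomials in `t` with coefficients in `R` -/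
noncomputable def WR (R : IntermediateField ℚ ℝ) (t : ℂ) : Submodule R ℂ :=
  Submodule.span R (Set.range fun j : ℕ => t ^ j)

section

variable {q : ℕ → ℕ} (hq : ∀ k, 2 ≤ q k)

include hq

theorem low_pow {t : ℂ} (ht : Pool.Agent.R347.SX.Far t) (l : ℂ) (hl : l ≠ 0) (D : ℕ) :
    Low q (fun j : Fin D => l * t ^ (j : ℕ)) := by
  have hlow := far_low ht (n := D) (fun j => Polynomial.X ^ (j : ℕ)) (fun c hc => by
    funext j
    have h2 := congrArg (fun Q : Polynomial ℤ => Q.coeff (j : ℕ)) hc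
    simp only [Polynomial.finsetSum_coeff, Polynomial.coeff_C_mul, Polynomial.coeff_X_pow,
      Polynomial.coeff_zero] at h2
    rw [Finset.sum_eq_single j] at h2
    · simpa using h2
    · intro i _ hij
      rw [if_neg (fun h => hij (Fin.ext h.symm)), mul_zero]
    · intro h
      exact absurd (mem_univ j) h) l hl hq
  simpa only [map_pow, Polynomial.aeval_X] using hlow

theorem low_W {t : ℂ} (ht : Pool.Agent.R347.SX.Far t) (l : ℂ) (hl : l ≠ 0) {n : ℕ} (u : Fin n → ℂ)
    (hu : ∀ i, u i ∈ WR (UR hq) t) (hli : LinearIndependent (UR hq) u) :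
    Low q (fun i => l * u i) := by
  classical
  have hrep : ∀ i, ∃ c : ℕ →₀ UR hq, (c.sum fun j a => a • t ^ j) = u i :=
    fun i => (Finsupp.mem_span_range_iff_exists_finsupp).1 (hu i)
  choose f hf using hrep
  set S : Finset ℕ := univ.biUnion fun i => (f i).support with hS
  set D : ℕ := S.sup id + 1 with hD
  set x : Fin n → Fin D → UR hq := fun i j => f i j with hx
  have hux : ∀ i, u i = ∑ j : Fin D, (((x i j : UR hq) : ℝ) : ℂ) * t ^ (j : ℕ) := by
    intro i
    rw [← hf i, Finsupp.sum]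
    rw [Fin.sum_univ_eq_sum_range (fun j => (((f i j : UR hq) : ℝ) : ℂ) * t ^ j) D]
    rw [sum_subset (s₂ := range D)]
    · refine sum_congr rfl fun j _ => ?_
      rw [Algebra.smul_def]
      rfl
    · intro j hj
      rw [mem_range]
      have h1 : j ∈ S := mem_biUnion.2 ⟨i, mem_univ i, hj⟩
      have h2 : j ≤ S.sup id := le_sup (f := id) h1
      omega
    · intro j _ hj
      rw [Finsupp.notMem_support_iff.1 hj, zero_smul]
  have hxli : LinearIndependent (UR hq) x := by
    rw [Fintype.linearIndependent_iff] at hli ⊢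
    intro g hg
    refine hli g ?_
    have h1 : ∀ j, ∑ i, (g i : ℝ) * (x i j : ℝ) = 0 := by
      intro j
      have h2 := congrFun hg j
      rw [Finset.sum_apply] at h2
      have h3 := congrArg (fun z : UR hq => (z : ℝ)) h2
      simp only [Pi.smul_apply, smul_eq_mul] at h3
      push_cast at h3
      simpa using h3
    have h2 : ∑ i, g i • u i = ∑ j : Fin D, ((∑ i, (g i : ℝ) * (x i j : ℝ) : ℝ) : ℂ) * t ^ (j : ℕ) := by
      push_cast
      simp only [sum_mul]
      rw [sum_comm]
      refine sum_congr rfl fun i _ => ?_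
      rw [hux i, Algebra.smul_def, mul_sum]
      refine sum_congr rfl fun j _ => ?_
      rw [← mul_assoc]
      rfl
    rw [h2]
    exact sum_eq_zero fun j _ => by rw [h1 j]; simp
  have h1 := low_comb hq _ (low_pow hq ht l hl D) x hxli
  have h2 : (fun i => ∑ j, (((x i j : UR hq) : ℝ) : ℂ) * (l * t ^ (j : ℕ))) = fun i => l * u i := by
    funext i
    rw [hux i, mul_sum]
    refine sum_congr rfl fun j _ => ?_
    ring
  rwa [h2] at h1

/-- the exponents `u` in `WR` with `e ^ (l₀ u)` and `e ^ (l₁ u)` in `K` -/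
noncomputable def WE (t l₀ l₁ : ℂ) : Submodule (UR hq) ℂ where
  carrier := {u | u ∈ WR (UR hq) t ∧ Appr q (Complex.exp (l₀ * u)) ∧ Appr q (Complex.exp (l₁ * u))}
  add_mem' := by
    rintro P Q ⟨h0, h1, h2⟩ ⟨k0, h3, h4⟩
    refine ⟨(WR (UR hq) t).add_mem h0 k0, ?_, ?_⟩
    · rw [mul_add, Complex.exp_add]
      exact h1.mul hq h3
    · rw [mul_add, Complex.exp_add]
      exact h2.mul hq h4
  zero_mem' := by
    refine ⟨(WR (UR hq) t).zero_mem, ?_, ?_⟩
    · rw [mul_zero, Complex.exp_zero]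
      exact Appr.one hq
    · rw [mul_zero, Complex.exp_zero]
      exact Appr.one hq
  smul_mem' := by
    rintro x P ⟨h0, h1, h2⟩
    have e : ∀ l : ℂ, l * (x • P) = ((x : ℝ) : ℂ) * (l * P) := by
      intro l
      rw [Algebra.smul_def]
      have : (algebraMap (UR hq) ℂ x : ℂ) = ((x : ℝ) : ℂ) := rfl
      rw [this]
      ring
    refine ⟨(WR (UR hq) t).smul_mem x h0, ?_, ?_⟩
    · rw [e]
      exact Appr.rpow hq h1 x.2
    · rw [e]
      exact Appr.rpow hq h2 x.2

theorem rank_WE (t l₀ l₁ : ℂ) (ht : Pool.Agent.R347.SX.Far t) (h0 : l₀ ≠ 0)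
    (hl : ¬ ∃ x : ℝ, RAppr q x ∧ l₁ / l₀ = x) : Module.rank (UR hq) (WE hq t l₀ l₁) ≤ 2 := by
  refine rank_le_two fun y hy => hl ?_
  have h1 : LinearIndependent (UR hq) (fun i => ((y i : WE hq t l₀ l₁) : ℂ)) :=
    hy.map' (WE hq t l₀ l₁).subtype (Submodule.ker_subtype _)
  refine six hq (l₁ / l₀) (fun i => l₀ * ((y i : WE hq t l₀ l₁) : ℂ))
    (low_W hq ht l₀ h0 _ (fun i => (y i).2.1) h1) (fun i => (y i).2.2.1) fun i => ?_
  have e : l₁ / l₀ * (l₀ * ((y i : WE hq t l₀ l₁) : ℂ)) = l₁ * ((y i : WE hq t l₀ l₁) : ℂ) := by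
    field_simp
  rw [e]
  exact (y i).2.2.2

/-- the powers of `t` are linearly independent over `R` -/
theorem pow_indep {t : ℂ} (ht : Pool.Agent.R347.SX.Far t) :
    LinearIndependent (UR hq) (fun j : ℕ => t ^ j) := by
  classical
  rw [linearIndependent_iff']
  intro s g hg j hj
  by_contra h0
  set D : ℕ := s.sup id + 1 with hD
  set c : ℕ → UR hq := fun j => if j ∈ s then g j else 0 with hc
  have h1 : ∑ i : Fin D, (((c i : UR hq) : ℝ) : ℂ) * t ^ (i : ℕ) = 0 := by
    rw [← hg, Fin.sum_univ_eq_sum_range (fun j => (((c j : UR hq) : ℝ) : ℂ) * t ^ j) D]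
    have h2 : ∑ i ∈ s, g i • t ^ i = ∑ i ∈ s, (((c i : UR hq) : ℝ) : ℂ) * t ^ i := by
      refine sum_congr rfl fun i hi => ?_
      rw [hc, Algebra.smul_def]
      simp only [if_pos hi]
      rfl
    rw [h2]
    symm
    refine sum_subset (fun i hi => ?_) fun i _ hi => ?_
    · rw [mem_range]
      have : i ≤ s.sup id := le_sup (f := id) hi
      omega
    · rw [hc]
      simp only [if_neg hi]
      simp
  have hjD : j < D := by
    have : j ≤ s.sup id := le_sup (f := id) hj
    omega
  have hli : LinearIndependent (UR hq) (fun (_ : Fin 1) (i : Fin D) => c i) := by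
    rw [linearIndependent_unique_iff]
    intro h
    have h2 := congrFun h ⟨j, hjD⟩
    apply h0
    rw [hc] at h2
    simp only [if_pos hj] at h2
    exact h2
  obtain ⟨κ, hκ⟩ := low_comb hq _ (low_pow hq ht 1 one_ne_zero D) _ hli 0
  have h3 := hκ 0 (fun _ => 1) (by
    intro h
    have := congrFun h 0
    simp at this) (fun _ => by
    have := hq 0
    have h5 := tow_ge_two hq 0 0
    rw [abs_one]
    exact_mod_cast (by omega : 1 ≤ tow 0 (q 0)))
  simp only [one_mul, h1, Int.cast_one, univ_unique, sum_const, card_singleton, one_smul,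
    norm_zero] at h3
  have h4 : (0 : ℝ) ≤ ((tow κ (q 0) : ℕ) : ℝ)⁻¹ := by positivity
  linarith

end

/-- independent vectors in a space of dimension at most two -/
theorem encard_le_of_indep {F V : Type} [Field F] [AddCommGroup V] [Module F V] (v : ℕ → V)
    (hv : LinearIndependent F v) (E : Submodule F V) (hE : Module.rank F E ≤ 2) :
    {j : ℕ | v j ∈ E}.encard ≤ 2 := by
  set S : Set ℕ := {j : ℕ | v j ∈ E} with hS
  have h1 : LinearIndependent F (fun j : S => (⟨v (j : ℕ), j.2⟩ : E)) := by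
    have h2 := hv.comp (fun j : S => (j : ℕ)) Subtype.val_injective
    exact LinearIndependent.of_comp E.subtype h2
  have h2 : Cardinal.mk S ≤ 2 := h1.cardinal_le_rank.trans hE
  have h3 := Cardinal.toENat.monotone' h2
  rw [Set.encard, ENat.card]
  simpa using h3

end Pool.Agent.T6.H3.LF
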