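import Pool.Agent.R347.SX.Trans
import Pool.Agent.R347.BE.Logs

/-!
# Lower bounds for combinations with coefficients in the field of rationally approximable numbers
-/

set_option autoImplicit false

namespace Pool.Agent.T6.H3.LF

open Finset Complex
open Pool.Agent.R347.LW Pool.Agent.R347.SX
open Pool.Agent.R347.GS (NE NE.const NE.mul NE.add NE.pow)

variable {q : ℕ → ℕ} (hq : ∀ k, 2 ≤ q k)

include hq

theorem tow_ge_two (κ k : ℕ) : 2 ≤ tow κ (q k) := by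
  have := le_tow κ (q k)
  have := hq k
  omega

theorem inv_tow_anti {κ κ' : ℕ} (h : κ ≤ κ') (k : ℕ) :
    ((tow κ' (q k) : ℕ) : ℝ)⁻¹ ≤ ((tow κ (q k) : ℕ) : ℝ)⁻¹ := by
  have h1 : tow κ (q k) ≤ tow κ' (q k) := tow_mono_left h _
  have h2 : 0 < tow κ (q k) := by
    have := tow_ge_two hq κ k
    omega
  exact inv_anti₀ (by exact_mod_cast h2) (by exact_mod_cast h1)

/-- It is enough to know the lower bounds for all large `k`. -/
theorem low_of_eventual {n : ℕ} (y : Fin n → ℂ)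
    (H : ∀ h : ℕ, ∃ κ k₀ : ℕ, ∀ k ≥ k₀, ∀ c : Fin n → ℤ, c ≠ 0 → (∀ m, |c m| ≤ tow h (q k)) →
      ((tow κ (q k) : ℕ) : ℝ)⁻¹ < ‖∑ m, (c m : ℂ) * y m‖) : Low q y := by
  classical
  have hne : ∀ c : Fin n → ℤ, c ≠ 0 → 0 < ‖∑ m, (c m : ℂ) * y m‖ := by
    intro c hc
    obtain ⟨κ, k₀, hk⟩ := H (∑ m, (c m).natAbs)
    refine lt_of_le_of_lt (by positivity) (hk k₀ le_rfl c hc fun m => ?_)
    have h1 : (c m).natAbs ≤ ∑ m, (c m).natAbs :=
      single_le_sum (f := fun m => (c m).natAbs) (fun _ _ => Nat.zero_le _) (mem_univ m)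
    have h2 := le_tow (∑ m, (c m).natAbs) (q k₀)
    rw [Int.abs_eq_natAbs]
    exact_mod_cast (by omega : (c m).natAbs ≤ tow (∑ m, (c m).natAbs) (q k₀))
  intro h
  obtain ⟨κ₁, k₀, hk₀⟩ := H h
  set B : ℕ := (range k₀).sup (fun k => tow h (q k)) with hB
  choose! κc hκc using fun (c : Fin n → ℤ) (hc : c ≠ 0) =>
    exists_nat_gt ((‖∑ m, (c m : ℂ) * y m‖)⁻¹)
  set S : Finset (Fin n → ℤ) := Fintype.piFinset (fun _ => Icc (-(B : ℤ)) B) with hS
  refine ⟨max κ₁ (S.sup κc), fun k c hc hcB => ?_⟩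
  by_cases hk : k₀ ≤ k
  · exact lt_of_le_of_lt (inv_tow_anti hq (le_max_left _ _) k) (hk₀ k hk c hc hcB)
  · have hkB : tow h (q k) ≤ B := le_sup (f := fun k => tow h (q k)) (mem_range.2 (by omega))
    have hcS : c ∈ S := by
      rw [hS, Fintype.mem_piFinset]
      intro m
      rw [mem_Icc]
      have h1 := abs_le.1 (hcB m)
      have h2 : ((tow h (q k) : ℕ) : ℤ) ≤ B := by exact_mod_cast hkB
      constructor <;> omega
    have h1 : κc c ≤ S.sup κc := le_sup (f := κc) hcS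
    have h2 := hκc c hc
    have h3 := le_tow (κc c) (q k)
    have h4 : (κc c : ℝ) ≤ tow (κc c) (q k) := by exact_mod_cast (by omega : κc c ≤ tow (κc c) (q k))
    refine lt_of_le_of_lt (inv_tow_anti hq (h1.trans (le_max_right _ _)) k) ?_
    have h5 := hne c hc
    rw [inv_lt_comm₀ (by
      have := tow_ge_two hq (κc c) k
      exact_mod_cast (by omega : 0 < tow (κc c) (q k))) h5]
    linarith

/-- Combinations, with coefficients in `R`, of numbers with lower bounds. -/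
theorem low_comb {r n : ℕ} (b : Fin r → ℂ) (hb : Low q b) (x : Fin n → Fin r → UR hq)
    (hli : LinearIndependent (UR hq) x) :
    Low q (fun i => ∑ j, (((x i j : UR hq) : ℝ) : ℂ) * b j) := by
  classical
  -- the inverse matrix
  set f : (Fin n → UR hq) →ₗ[UR hq] (Fin r → UR hq) :=
    Fintype.linearCombination (UR hq) x with hf
  have hker : LinearMap.ker f = ⊥ := by
    rw [LinearMap.ker_eq_bot]
    exact linearIndependent_iff_injective_fintypeLinearCombination.1 hli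
  obtain ⟨g, hg⟩ := LinearMap.exists_leftInverse_of_injective f hker
  set Z : Fin r → Fin n → ℝ := fun j i => ((g (Pi.single j 1) i : UR hq) : ℝ) with hZ
  set C : ℝ := ∑ i, ∑ j, |Z j i| + 1 with hC
  have hC0 : 0 < C := by positivity
  have hfc : ∀ c : Fin n → ℤ, ∀ j, ((f (fun i => (c i : UR hq)) j : UR hq) : ℝ) =
      ∑ i, (c i : ℝ) * (x i j : ℝ) := by
    intro c j
    rw [hf, Fintype.linearCombination_apply, Finset.sum_apply]
    push_cast
    refine sum_congr rfl fun i _ => ?_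
    simp [smul_eq_mul]
  have hinv : ∀ c : Fin n → ℤ, ∀ i, (c i : ℝ) =
      ∑ j, (∑ l, (c l : ℝ) * (x l j : ℝ)) * Z j i := by
    intro c i
    have h1 : g (f (fun i => (c i : UR hq))) = fun i => (c i : UR hq) := by
      have := congrArg (fun F => F (fun i => (c i : UR hq))) hg
      simpa using this
    have h2 : f (fun i => (c i : UR hq)) = ∑ j, (f (fun i => (c i : UR hq)) j) • Pi.single j 1 := by
      funext l
      rw [Finset.sum_apply]
      simp [Pi.single_apply]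
    have h3 := congrFun h1 i
    rw [h2, map_sum] at h3
    rw [Finset.sum_apply] at h3
    have h4 := congrArg (fun z : UR hq => (z : ℝ)) h3
    simp only [map_smul, Pi.smul_apply, smul_eq_mul] at h4
    push_cast at h4
    rw [← h4]
    refine sum_congr rfl fun j _ => ?_
    rw [hfc]
  have hbig : ∀ c : Fin n → ℤ, c ≠ 0 → ∃ j, C⁻¹ < |∑ l, (c l : ℝ) * (x l j : ℝ)| := by
    intro c hc
    by_contra hcon
    push Not at hcon
    obtain ⟨i, hi⟩ : ∃ i, c i ≠ 0 := by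
      by_contra h
      push Not at h
      exact hc (funext h)
    have h1 : (1 : ℝ) ≤ |(c i : ℝ)| := by exact_mod_cast Int.one_le_abs hi
    have h2 : |(c i : ℝ)| ≤ ∑ j, C⁻¹ * |Z j i| := by
      conv_lhs => rw [hinv c i]
      refine (abs_sum_le_sum_abs _ _).trans (sum_le_sum fun j _ => ?_)
      rw [abs_mul]
      exact mul_le_mul_of_nonneg_right (hcon j) (abs_nonneg _)
    rw [← mul_sum] at h2
    have h3 : ∑ j, |Z j i| ≤ C - 1 := by
      have := single_le_sum (f := fun i => ∑ j, |Z j i|) (fun _ _ => by positivity) (mem_univ i)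
      simp only [hC]
      linarith
    have h4 : C⁻¹ * ∑ j, |Z j i| ≤ C⁻¹ * (C - 1) := mul_le_mul_of_nonneg_left h3 (by positivity)
    have h5 : C⁻¹ * (C - 1) < 1 := by
      rw [mul_sub, inv_mul_cancel₀ hC0.ne']
      have : 0 < C⁻¹ * 1 := by positivity
      linarith
    linarith
  -- the approximations
  obtain ⟨h₁, hh₁⟩ := Pool.Agent.R347.BE.common_den hq (σ := Fin n × Fin r)
    (fun p => ((x p.1 p.2 : UR hq) : ℝ)) (fun p => (x p.1 p.2).2)
  set X₀ : ℕ := ⌈∑ p : Fin n × Fin r, |((x p.1 p.2 : UR hq) : ℝ)|⌉₊ + 1 with hX₀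
  set B₀ : ℕ := ⌈∑ j, ‖b j‖⌉₊ with hB₀
  set C₀ : ℕ := ⌈C⌉₊ with hC₀
  refine low_of_eventual hq _ fun h => ?_
  -- the size of the integers
  obtain ⟨h₂, hh₂⟩ : NE q (fun k => n * tow h (q k) * (X₀ * tow h₁ (q k))) :=
    NE.mul hq (NE.mul hq (NE.const n) ⟨h, fun _ => le_rfl⟩)
      (NE.mul hq (NE.const X₀) ⟨h₁, fun _ => le_rfl⟩)
  obtain ⟨κ₁, hκ₁⟩ := hb h₂
  -- the quality needed
  obtain ⟨κ₂, hκ₂⟩ : NE q (fun k => 2 * (n * tow h (q k) * (B₀ + 1)) * (tow h₁ (q k) * tow κ₁ (q k)) +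
      2 * (n * tow h (q k) * C₀) + 2) :=
    NE.add hq (NE.add hq (NE.mul hq (NE.mul hq (NE.const 2) (NE.mul hq (NE.mul hq (NE.const n)
      ⟨h, fun _ => le_rfl⟩) (NE.const (B₀ + 1)))) (NE.mul hq ⟨h₁, fun _ => le_rfl⟩
      ⟨κ₁, fun _ => le_rfl⟩)) (NE.mul hq (NE.const 2) (NE.mul hq (NE.mul hq (NE.const n)
      ⟨h, fun _ => le_rfl⟩) (NE.const C₀)))) (NE.const 2)
  obtain ⟨κ₃, hκ₃⟩ : NE q (fun k => 2 * (tow h₁ (q k) * tow κ₁ (q k)) + 1) :=
    NE.add hq (NE.mul hq (NE.const 2) (NE.mul hq ⟨h₁, fun _ => le_rfl⟩ ⟨κ₁, fun _ => le_rfl⟩))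
      (NE.const 1)
  obtain ⟨k₀, hk₀⟩ := hh₁ κ₂
  refine ⟨κ₃, k₀, fun k hk c hc hcB => ?_⟩
  obtain ⟨V, U, hV1, hV2, hUV⟩ := hk₀ k hk
  have hV0 : (0 : ℝ) < V := by exact_mod_cast hV1
  have hV1R : (1 : ℝ) ≤ V := by exact_mod_cast hV1
  set T : ℝ := ((tow h (q k) : ℕ) : ℝ) with hT
  set ε : ℝ := ((tow κ₂ (q k) : ℕ) : ℝ)⁻¹ with hε
  have hT0 : 0 < T := by
    have := tow_ge_two hq h k
    rw [hT]
    exact_mod_cast (by omega : 0 < tow h (q k))
  have hcT : ∀ m, |(c m : ℝ)| ≤ T := by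
    intro m
    have := hcB m
    rw [hT]
    exact_mod_cast this
  have hκ₂k := hκ₂ k
  simp only at hκ₂k
  have hE0 : (0 : ℝ) < (tow κ₂ (q k) : ℕ) := by
    have := tow_ge_two hq κ₂ k
    exact_mod_cast (by omega : 0 < tow κ₂ (q k))
  have hε0 : 0 < ε := by positivity
  have hε1 : ε ≤ 1 := by
    apply inv_le_one_of_one_le₀
    have := tow_ge_two hq κ₂ k
    exact_mod_cast (by omega : 1 ≤ tow κ₂ (q k))
  have hκ₁0 : (0 : ℝ) < (tow κ₁ (q k) : ℕ) := by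
    have := tow_ge_two hq κ₁ k
    exact_mod_cast (by omega : 0 < tow κ₁ (q k))
  have hh₁0 : (0 : ℝ) < (tow h₁ (q k) : ℕ) := by
    have := tow_ge_two hq h₁ k
    exact_mod_cast (by omega : 0 < tow h₁ (q k))
  -- the integer vector
  set M : Fin r → ℤ := fun j => ∑ i, c i * U (i, j) with hM
  set w : Fin r → ℝ := fun j => ∑ i, (c i : ℝ) * (x i j : ℝ) with hw
  have hwM : ∀ j, |w j - M j / V| ≤ n * T * ε := by
    intro j
    have e1 : w j - M j / V = ∑ i, (c i : ℝ) * ((x i j : ℝ) - U (i, j) / V) := by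
      rw [hw, hM]
      push_cast
      rw [sum_div, ← sum_sub_distrib]
      refine sum_congr rfl fun i _ => ?_
      ring
    rw [e1]
    refine (abs_sum_le_sum_abs _ _).trans ?_
    calc ∑ i, |(c i : ℝ) * ((x i j : ℝ) - U (i, j) / V)| ≤ ∑ _i : Fin n, T * ε := by
          refine sum_le_sum fun i _ => ?_
          rw [abs_mul]
          exact mul_le_mul (hcT i) (hUV (i, j)) (abs_nonneg _) hT0.le
      _ = _ := by rw [sum_const, card_univ, Fintype.card_fin, nsmul_eq_mul]; ring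
  -- sizes
  have hUsize : ∀ p, |(U p : ℝ)| ≤ X₀ * V := by
    intro p
    have h1 : |((x p.1 p.2 : UR hq) : ℝ)| ≤ ∑ p : Fin n × Fin r, |((x p.1 p.2 : UR hq) : ℝ)| :=
      single_le_sum (f := fun p : Fin n × Fin r => |((x p.1 p.2 : UR hq) : ℝ)|)
        (fun _ _ => abs_nonneg _) (mem_univ p)
    have h2 := Nat.le_ceil (∑ p : Fin n × Fin r, |((x p.1 p.2 : UR hq) : ℝ)|)
    have h3 := (hUV p).trans hε1
    have h4 : |(U p : ℝ) / V| ≤ X₀ := by
      have h5 : (U p : ℝ) / V = ((x p.1 p.2 : UR hq) : ℝ) - (((x p.1 p.2 : UR hq) : ℝ) - U p / V) := by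
        ring
      rw [h5]
      refine (abs_sub _ _).trans ?_
      rw [hX₀]
      push_cast
      linarith
    rw [abs_div, abs_of_pos hV0, div_le_iff₀ hV0] at h4
    exact h4
  have hMsize : ∀ j, |M j| ≤ tow h₂ (q k) := by
    intro j
    have h1 : |(M j : ℝ)| ≤ ((n * tow h (q k) * (X₀ * tow h₁ (q k)) : ℕ) : ℝ) := by
      rw [hM]
      push_cast
      refine (abs_sum_le_sum_abs _ _).trans ?_
      calc ∑ i, |(c i : ℝ) * (U (i, j) : ℝ)| ≤ ∑ _i : Fin n, T * (X₀ * (tow h₁ (q k) : ℕ)) := by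
            refine sum_le_sum fun i _ => ?_
            rw [abs_mul]
            refine mul_le_mul (hcT i) ((hUsize (i, j)).trans ?_) (abs_nonneg _) hT0.le
            refine mul_le_mul_of_nonneg_left ?_ (by positivity)
            exact_mod_cast hV2
        _ = _ := by rw [sum_const, card_univ, Fintype.card_fin, nsmul_eq_mul]; ring
    have h2 : |M j| ≤ ((n * tow h (q k) * (X₀ * tow h₁ (q k)) : ℕ) : ℤ) := by exact_mod_cast h1
    exact h2.trans (by exact_mod_cast hh₂ k)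
  -- the vector is not zero
  have hM0 : M ≠ 0 := by
    intro h0
    obtain ⟨j, hj⟩ := hbig c hc
    have h1 := hwM j
    have h2 : (M j : ℝ) = 0 := by rw [h0]; simp
    rw [h2, zero_div, sub_zero] at h1
    have h3 : n * T * ε ≤ C⁻¹ := by
      have h4 : (n : ℝ) * T * C ≤ (tow κ₂ (q k) : ℕ) := by
        have h5 : C ≤ C₀ := Nat.le_ceil _
        have h6 : (n : ℝ) * T * C ≤ n * T * C₀ := by gcongr
        have h7 : (n * tow h (q k) * C₀ : ℕ) ≤ tow κ₂ (q k) := by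
          refine le_trans ?_ hκ₂k
          have : n * tow h (q k) * C₀ ≤ 2 * (n * tow h (q k) * C₀) := by omega
          omega
        have h8 : (n : ℝ) * T * C₀ ≤ (tow κ₂ (q k) : ℕ) := by
          rw [hT]
          exact_mod_cast h7
        linarith
      rw [hε, ← div_eq_mul_inv, div_le_iff₀ hE0, ← div_eq_inv_mul, le_div_iff₀ hC0]
      exact h4
    have h4 : |w j| ≤ C⁻¹ := h1.trans h3
    exact absurd hj (not_lt.2 h4)
  have hlo := hκ₁ k M hM0 hMsize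
  -- comparison
  have hsum : ∑ i, (c i : ℂ) * ∑ j, (((x i j : UR hq) : ℝ) : ℂ) * b j = ∑ j, ((w j : ℝ) : ℂ) * b j := by
    simp only [mul_sum, hw]
    rw [sum_comm]
    refine sum_congr rfl fun j _ => ?_
    push_cast
    rw [sum_mul]
    refine sum_congr rfl fun i _ => ?_
    ring
  have hdiff : ∑ j, ((w j : ℝ) : ℂ) * b j =
      (V : ℂ)⁻¹ * ∑ j, (M j : ℂ) * b j + ∑ j, ((w j - M j / V : ℝ) : ℂ) * b j := by
    rw [mul_sum, ← sum_add_distrib]
    refine sum_congr rfl fun j _ => ?_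
    have : (V : ℂ) ≠ 0 := by exact_mod_cast hV0.ne'
    push_cast
    field_simp
    ring
  have herr : ‖∑ j, ((w j - M j / V : ℝ) : ℂ) * b j‖ ≤ n * T * ε * B₀ := by
    refine (norm_sum_le _ _).trans ?_
    calc ∑ j, ‖((w j - M j / V : ℝ) : ℂ) * b j‖ ≤ ∑ j, n * T * ε * ‖b j‖ := by
          refine sum_le_sum fun j _ => ?_
          rw [norm_mul, Complex.norm_real, Real.norm_eq_abs]
          exact mul_le_mul_of_nonneg_right (hwM j) (norm_nonneg _)
      _ = n * T * ε * ∑ j, ‖b j‖ := by rw [mul_sum]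
      _ ≤ _ := by
          refine mul_le_mul_of_nonneg_left (Nat.le_ceil _) ?_
          positivity
  have hmain : ((tow h₁ (q k) : ℕ) : ℝ)⁻¹ * ((tow κ₁ (q k) : ℕ) : ℝ)⁻¹ ≤
      ‖(V : ℂ)⁻¹ * ∑ j, (M j : ℂ) * b j‖ := by
    rw [norm_mul, norm_inv]
    have h1 : ‖(V : ℂ)‖ = (V : ℝ) := by simp
    rw [h1]
    have h2 : (V : ℝ) ≤ (tow h₁ (q k) : ℕ) := by exact_mod_cast hV2
    exact mul_le_mul (inv_anti₀ hV0 h2) hlo.le (by positivity) (by positivity)
  have herr2 : n * T * ε * B₀ ≤ (1 / 2) * (((tow h₁ (q k) : ℕ) : ℝ)⁻¹ * ((tow κ₁ (q k) : ℕ) : ℝ)⁻¹) := by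
    have h7 : (2 * (n * tow h (q k) * (B₀ + 1)) * (tow h₁ (q k) * tow κ₁ (q k)) : ℕ) ≤ tow κ₂ (q k) := by
      refine le_trans ?_ hκ₂k
      omega
    have h8 : 2 * ((n : ℝ) * T * (B₀ + 1)) * ((tow h₁ (q k) : ℕ) * (tow κ₁ (q k) : ℕ)) ≤
        (tow κ₂ (q k) : ℕ) := by
      rw [hT]
      exact_mod_cast h7
    have h9 : 2 * ((n : ℝ) * T * B₀) * ((tow h₁ (q k) : ℕ) * (tow κ₁ (q k) : ℕ)) ≤
        (tow κ₂ (q k) : ℕ) := by
      refine le_trans ?_ h8
      have : (B₀ : ℝ) ≤ B₀ + 1 := by linarith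
      gcongr
    have e1 : n * T * ε * B₀ = (n * T * B₀) / (tow κ₂ (q k) : ℕ) := by
      rw [hε, div_eq_mul_inv]; ring
    have e2 : (1 / 2 : ℝ) * (((tow h₁ (q k) : ℕ) : ℝ)⁻¹ * ((tow κ₁ (q k) : ℕ) : ℝ)⁻¹) =
        1 / (2 * ((tow h₁ (q k) : ℕ) * (tow κ₁ (q k) : ℕ))) := by
      field_simp
    rw [e1, e2, div_le_div_iff₀ hE0 (by positivity)]
    nlinarith
  have hfin : ((tow κ₃ (q k) : ℕ) : ℝ)⁻¹ <
      (1 / 2) * (((tow h₁ (q k) : ℕ) : ℝ)⁻¹ * ((tow κ₁ (q k) : ℕ) : ℝ)⁻¹) := by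
    have h1 : 2 * ((tow h₁ (q k) : ℕ) * (tow κ₁ (q k) : ℕ) : ℝ) + 1 ≤ (tow κ₃ (q k) : ℕ) := by
      exact_mod_cast hκ₃ k
    have e2 : (1 / 2 : ℝ) * (((tow h₁ (q k) : ℕ) : ℝ)⁻¹ * ((tow κ₁ (q k) : ℕ) : ℝ)⁻¹) =
        (2 * ((tow h₁ (q k) : ℕ) * (tow κ₁ (q k) : ℕ)) : ℝ)⁻¹ := by
      field_simp
    rw [e2]
    refine inv_strictAnti₀ (by positivity) ?_
    linarith
  have hfinal : ((tow κ₃ (q k) : ℕ) : ℝ)⁻¹ <
      ‖∑ i, (c i : ℂ) * ∑ j, (((x i j : UR hq) : ℝ) : ℂ) * b j‖ := by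
    rw [hsum, hdiff]
    have h1 := norm_sub_le_norm_add ((V : ℂ)⁻¹ * ∑ j, (M j : ℂ) * b j)
      (∑ j, ((w j - M j / V : ℝ) : ℂ) * b j)
    linarith
  exact hfinal

end Pool.Agent.T6.H3.LF
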