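import Pool.Agent.T6.H3.LF.Low
import Pool.Agent.R347.GS.Struct
import Pool.Agent.HP778.Count

/-!
# Six exponentials over the field of approximable numbers: spaces of exponents
-/

set_option autoImplicit false

namespace Pool.Agent.T6.H3.LF

open Finset Complex
open Pool.Agent.R347.LW Pool.Agent.R347.SX

/-- the `R`-span of the logarithms of the primes -/
noncomputable def MR (R : IntermediateField ℚ ℝ) : Submodule R ℝ :=
  Submodule.span R (Set.range fun p : Nat.Primes => Real.log (p : ℕ))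

variable {q : ℕ → ℕ} (hq : ∀ k, 2 ≤ q k)

include hq

theorem low_logs {r : ℕ} (P : Fin r → Nat.Primes) (hP : Function.Injective P) :
    Low q (fun j => ((Real.log (P j : ℕ) : ℝ) : ℂ)) := by
  have hLI := (Pool.Agent.R347.BE.logs_indep hq).comp P hP
  refine low_of_alg hq _ (fun m => ?_) fun c hc => ?_
  · have h0 : (0 : ℝ) < ((P m : Nat.Primes) : ℕ) := by exact_mod_cast (P m).2.pos
    rw [← Complex.ofReal_exp, Real.exp_log h0]
    exact_mod_cast isAlgebraic_natCast ((P m : Nat.Primes) : ℕ)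
  · rw [Fintype.linearIndependent_iff] at hLI
    have h1 : ∑ m, (c m : ℝ) * Real.log (P m : ℕ) = 0 := by exact_mod_cast hc
    have h2 := hLI (fun m => (c m : UR hq)) (by
      rw [← h1]
      refine sum_congr rfl fun m _ => ?_
      rw [Function.comp_apply, Algebra.smul_def]
      congr 1)
    funext m
    have h3 := congrArg (fun z : UR hq => (z : ℝ)) (h2 m)
    have h4 : ((c m : ℤ) : ℝ) = 0 := by simpa using h3
    exact_mod_cast h4

theorem exp_M_mem {y : ℝ} (hy : y ∈ MR (UR hq)) : Appr q (exp ((y : ℝ) : ℂ)) := by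
  refine Submodule.span_induction (p := fun y _ => Appr q (exp ((y : ℝ) : ℂ))) ?_ ?_ ?_ ?_ hy
  · rintro _ ⟨p, rfl⟩
    have h0 : (0 : ℝ) < (p : ℕ) := by exact_mod_cast p.2.pos
    simp only
    rw [← Complex.ofReal_exp, Real.exp_log h0]
    have := Appr.rat hq (((p : ℕ) : ℚ))
    push_cast at this ⊢
    exact this
  · rw [Complex.ofReal_zero, Complex.exp_zero]
    exact Appr.one hq
  · intro a b _ _ ha hb
    rw [Complex.ofReal_add, Complex.exp_add]
    exact ha.mul hq hb
  · intro x a _ ha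
    have h1 := Appr.rpow hq ha (x := (x : ℝ)) x.2
    have e : ((x • a : ℝ) : ℂ) = ((x : ℝ) : ℂ) * (a : ℂ) := by
      rw [Algebra.smul_def]
      push_cast
      rfl
    rw [e]
    exact h1

theorem low_M {n : ℕ} (y : Fin n → ℝ) (hy : ∀ i, y i ∈ MR (UR hq))
    (hli : LinearIndependent (UR hq) y) : Low q (fun i => ((y i : ℝ) : ℂ)) := by
  classical
  have hrep : ∀ i, ∃ c : Nat.Primes →₀ UR hq, (c.sum fun p a => a • Real.log (p : ℕ)) = y i :=
    fun i => (Finsupp.mem_span_range_iff_exists_finsupp).1 (hy i)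
  choose f hf using hrep
  set S : Finset Nat.Primes := univ.biUnion fun i => (f i).support with hS
  set e := S.equivFin.symm with he
  set x : Fin n → Fin S.card → UR hq := fun i j => f i (e j : S) with hx
  have hyx : ∀ i, y i = ∑ j, (x i j : ℝ) * Real.log (((e j : S) : Nat.Primes) : ℕ) := by
    intro i
    rw [← hf i, Finsupp.sum]
    have h1 : ∑ p ∈ (f i).support, f i p • Real.log (p : ℕ) =
        ∑ p ∈ S, ((f i p : UR hq) : ℝ) * Real.log (p : ℕ) := by
      rw [sum_subset (s₂ := S)]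
      · refine sum_congr rfl fun p _ => ?_
        rw [Algebra.smul_def]
        rfl
      · intro p hp
        exact mem_biUnion.2 ⟨i, mem_univ i, hp⟩
      · intro p _ hp
        rw [Finsupp.notMem_support_iff.1 hp, zero_smul]
    rw [h1, ← Finset.sum_coe_sort S (fun p => ((f i p : UR hq) : ℝ) * Real.log (p : ℕ))]
    exact (Equiv.sum_comp e (fun p : S => ((f i p : UR hq) : ℝ) *
      Real.log (((p : Nat.Primes) : ℕ)))).symm
  have hxli : LinearIndependent (UR hq) x := by
    rw [Fintype.linearIndependent_iff] at hli ⊢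
    intro g hg
    refine hli g ?_
    have h1 : ∀ j, ∑ i, (g i : ℝ) * (x i j : ℝ) = 0 := by
      intro j
      have h2 := congrFun hg j
      rw [Finset.sum_apply] at h2
      have h3 := congrArg (fun z : UR hq => (z : ℝ)) h2
      simp only [Pi.smul_apply, smul_eq_mul] at h3
      push_cast at h3
      simpa using h3
    have h2 : ∑ i, g i • y i = ∑ j, (∑ i, (g i : ℝ) * (x i j : ℝ)) *
        Real.log (((e j : S) : Nat.Primes) : ℕ) := by
      simp only [sum_mul]
      rw [sum_comm]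
      refine sum_congr rfl fun i _ => ?_
      rw [hyx i, Algebra.smul_def, mul_sum]
      refine sum_congr rfl fun j _ => ?_
      rw [← mul_assoc]
      rfl
    rw [h2]
    exact sum_eq_zero fun j _ => by rw [h1 j, zero_mul]
  have h1 := low_comb hq (fun j => ((Real.log (((e j : S) : Nat.Primes) : ℕ) : ℝ) : ℂ))
    (low_logs hq (fun j => ((e j : S) : Nat.Primes))
      (fun a b hab => e.injective (Subtype.ext hab))) x hxli
  have h2 : (fun i => ∑ j, (((x i j : UR hq) : ℝ) : ℂ) *
      ((Real.log (((e j : S) : Nat.Primes) : ℕ) : ℝ) : ℂ)) = fun i => ((y i : ℝ) : ℂ) := by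
    funext i
    rw [hyx i]
    push_cast
    rfl
  rwa [h2] at h1

/-- the exponents `y` in `M` with `e ^ (s y)` in `K` -/
def EE (s : ℂ) : Submodule (UR hq) ℝ where
  carrier := {y | y ∈ MR (UR hq) ∧ Appr q (exp (s * ((y : ℝ) : ℂ)))}
  add_mem' := by
    rintro a b ⟨ha, ha'⟩ ⟨hb, hb'⟩
    refine ⟨(MR (UR hq)).add_mem ha hb, ?_⟩
    rw [Complex.ofReal_add, mul_add, Complex.exp_add]
    exact ha'.mul hq hb'
  zero_mem' := by
    refine ⟨(MR (UR hq)).zero_mem, ?_⟩
    rw [Complex.ofReal_zero, mul_zero, Complex.exp_zero]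
    exact Appr.one hq
  smul_mem' := by
    rintro x a ⟨ha, ha'⟩
    refine ⟨(MR (UR hq)).smul_mem x ha, ?_⟩
    have h1 := Appr.rpow hq ha' (x := (x : ℝ)) x.2
    have e : s * ((x • a : ℝ) : ℂ) = ((x : ℝ) : ℂ) * (s * (a : ℂ)) := by
      rw [Algebra.smul_def]
      push_cast
      have : ((algebraMap (UR hq) ℝ x : ℝ) : ℂ) = ((x : ℝ) : ℂ) := rfl
      rw [this]
      ring
    rw [e]
    exact h1

theorem mem_EE {s : ℂ} {y : ℝ} : y ∈ EE hq s ↔ y ∈ MR (UR hq) ∧ Appr q (exp (s * ((y : ℝ) : ℂ))) :=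
  Iff.rfl

omit hq in
/-- A space in which any three elements are dependent. -/
theorem rank_le_two {F V : Type} [Field F] [AddCommGroup V] [Module F V]
    (h : ∀ y : Fin 3 → V, ¬ LinearIndependent F y) : Module.rank F V ≤ 2 := by
  refine rank_le (n := 2) fun s hs => ?_
  by_contra hcon
  push Not at hcon
  have h3 : Fintype.card (Fin 3) ≤ Fintype.card s := by simp; omega
  obtain ⟨e⟩ := Function.Embedding.nonempty_of_card_le h3
  exact h (fun i => ((e i : s) : V)) (hs.comp e e.injective)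

theorem rank_EE (s : ℂ) (hs : ¬ ∃ x : ℝ, RAppr q x ∧ s = x) :
    Module.rank (UR hq) (EE hq s) ≤ 2 := by
  refine rank_le_two fun y hy => hs ?_
  have h1 : LinearIndependent (UR hq) (fun i => ((y i : EE hq s) : ℝ)) :=
    hy.map' (EE hq s).subtype (Submodule.ker_subtype _)
  exact six hq s (fun i => (((y i : EE hq s) : ℝ) : ℂ))
    (low_M hq _ (fun i => (y i).2.1) h1) (fun m => exp_M_mem hq (y m).2.1) (fun m => (y m).2.2)

/-- the count of the integers -/
theorem count_s (s w : ℂ) (hs : ¬ ∃ x : ℝ, RAppr q x ∧ s = x) (N : ℕ) (S : Finset ℕ)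
    (hS : ∀ n ∈ S, (1 ≤ n ∧ n ≤ N) ∧ Appr q (exp (s * ((Real.log n : ℝ) : ℂ) + w))) :
    S.card ≤ (Nat.log 2 N + 1) ^ 2 := by
  rcases S.eq_empty_or_nonempty with h0 | ⟨n₀, hn₀⟩
  · rw [h0, Finset.card_empty]
    exact Nat.zero_le _
  refine Pool.Agent.HP778.count (N := N) S (fun n hn => (hS n hn).1) n₀ (hS n₀ hn₀).1.2 ?_
  intro m n hn hli
  by_contra hm
  push Not at hm
  set ι : Fin 3 → Fin m := fun i => ⟨i, by omega⟩ with hι
  have hιinj : Function.Injective ι := fun a b hab => Fin.ext (by simpa [hι] using hab)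
  have h1 := hli.comp ι hιinj
  refine hs (six hq s (fun i => ((Real.log (n (ι i)) : ℝ) : ℂ) - ((Real.log n₀ : ℝ) : ℂ))
    (low_of_alg hq _ (fun i => ?_) fun c hc => ?_) (fun i => ?_) (fun i => ?_))
  · have h2 : (0 : ℝ) < n (ι i) := by exact_mod_cast (hS _ (hn (ι i))).1.1
    have h3 : (0 : ℝ) < n₀ := by exact_mod_cast (hS _ hn₀).1.1
    rw [Complex.exp_sub, ← Complex.ofReal_exp, ← Complex.ofReal_exp, Real.exp_log h2,
      Real.exp_log h3, div_eq_mul_inv]
    refine IsAlgebraic.mul ?_ (IsAlgebraic.inv ?_)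
    · exact_mod_cast isAlgebraic_natCast (n (ι i))
    · exact_mod_cast isAlgebraic_natCast n₀
  · rw [Fintype.linearIndependent_iff] at h1
    have h2 := h1 (fun i => (c i : ℚ)) (by
      rw [← hc]
      refine sum_congr rfl fun i _ => ?_
      rw [Rat.smul_def]
      push_cast
      rfl)
    funext i
    exact_mod_cast h2 i
  · have h2 : (0 : ℝ) < n (ι i) := by exact_mod_cast (hS _ (hn (ι i))).1.1
    have h3 : (0 : ℝ) < n₀ := by exact_mod_cast (hS _ hn₀).1.1
    rw [Complex.exp_sub, ← Complex.ofReal_exp, ← Complex.ofReal_exp, Real.exp_log h2,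
      Real.exp_log h3, div_eq_mul_inv]
    have a1 := Appr.rat hq ((n (ι i) : ℕ) : ℚ)
    have a2 := Appr.rat hq ((n₀ : ℕ) : ℚ)
    push_cast at a1 a2 ⊢
    exact a1.mul hq (a2.inv hq)
  · have h2 := (hS _ (hn (ι i))).2
    have h3 := (hS _ hn₀).2
    have e : exp (s * (((Real.log (n (ι i)) : ℝ) : ℂ) - ((Real.log n₀ : ℝ) : ℂ))) =
        exp (s * ((Real.log (n (ι i)) : ℝ) : ℂ) + w) * (exp (s * ((Real.log n₀ : ℝ) : ℂ) + w))⁻¹ := by
      rw [← Complex.exp_neg, ← Complex.exp_add]
      congr 1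
      ring
    rw [e]
    exact h2.mul hq (h3.inv hq)

/-- `R` acts on `ℂ` -/
theorem aeval_eq {D : ℕ} (t : ℂ) (P : Polynomial (UR hq)) (hP : P.natDegree ≤ D) :
    Polynomial.aeval t P = ∑ j : Fin (D + 1), (((P.coeff j : UR hq) : ℝ) : ℂ) * t ^ (j : ℕ) := by
  rw [Polynomial.aeval_eq_sum_range' (n := D + 1) (by omega)]
  rw [← Fin.sum_univ_eq_sum_range (fun i => P.coeff i • t ^ i) (D + 1)]
  refine sum_congr rfl fun j _ => ?_
  rw [Algebra.smul_def]
  rfl

/-- the exponents `P(t)`, `P` in `R[X]`, with `e ^ (l₀ P(t))` and `e ^ (l₁ P(t))` in `K` -/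
noncomputable def FE (t l₀ l₁ : ℂ) : Submodule (UR hq) (Polynomial (UR hq)) where
  carrier := {P | Appr q (exp (l₀ * Polynomial.aeval t P)) ∧ Appr q (exp (l₁ * Polynomial.aeval t P))}
  add_mem' := by
    rintro P Q ⟨h1, h2⟩ ⟨h3, h4⟩
    constructor
    · rw [map_add, mul_add, Complex.exp_add]
      exact h1.mul hq h3
    · rw [map_add, mul_add, Complex.exp_add]
      exact h2.mul hq h4
  zero_mem' := by
    constructor
    · rw [map_zero, mul_zero, Complex.exp_zero]
      exact Appr.one hq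
    · rw [map_zero, mul_zero, Complex.exp_zero]
      exact Appr.one hq
  smul_mem' := by
    rintro x P ⟨h1, h2⟩
    have e : ∀ l : ℂ, l * Polynomial.aeval t (x • P) = ((x : ℝ) : ℂ) * (l * Polynomial.aeval t P) := by
      intro l
      rw [map_smul, Algebra.smul_def]
      have : (algebraMap (UR hq) ℂ x : ℂ) = ((x : ℝ) : ℂ) := rfl
      rw [this]
      ring
    constructor
    · rw [e]
      exact Appr.rpow hq h1 x.2
    · rw [e]
      exact Appr.rpow hq h2 x.2

theorem rank_FE (t l₀ l₁ : ℂ) (ht : Far t) (h0 : l₀ ≠ 0) (hl : ¬ ∃ x : ℝ, RAppr q x ∧ l₁ / l₀ = x) :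
    Module.rank (UR hq) (FE hq t l₀ l₁) ≤ 2 := by
  classical
  refine rank_le_two fun y hy => hl ?_
  have h1 : LinearIndependent (UR hq) (fun i => ((y i : FE hq t l₀ l₁) : Polynomial (UR hq))) :=
    hy.map' (FE hq t l₀ l₁).subtype (Submodule.ker_subtype _)
  set P : Fin 3 → Polynomial (UR hq) := fun i => ((y i : FE hq t l₀ l₁) : Polynomial (UR hq)) with hP
  set D : ℕ := univ.sup (fun i => (P i).natDegree) with hD
  have hPD : ∀ i, (P i).natDegree ≤ D := fun i =>
    le_sup (f := fun i => (P i).natDegree) (mem_univ i)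
  set x : Fin 3 → Fin (D + 1) → UR hq := fun i j => (P i).coeff j with hx
  have hxli : LinearIndependent (UR hq) x := by
    rw [Fintype.linearIndependent_iff] at h1 ⊢
    intro g hg
    refine h1 g ?_
    ext j
    rw [Polynomial.finsetSum_coeff, Polynomial.coeff_zero]
    by_cases hj : j < D + 1
    · have h2 := congrFun hg ⟨j, hj⟩
      rw [Finset.sum_apply] at h2
      simp only [Polynomial.coeff_smul]
      have h3 : ∑ i, g i • (P i).coeff j = 0 := h2
      rw [h3]
    · simp only [Polynomial.coeff_smul]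
      rw [sum_eq_zero fun i _ => ?_]
      rw [Polynomial.coeff_eq_zero_of_natDegree_lt (lt_of_le_of_lt (hPD i) (by omega)), smul_zero]
  have hlow := far_low ht (n := D + 1) (fun j => Polynomial.X ^ (j : ℕ)) (fun c hc => by
    funext j
    have h2 := congrArg (fun Q : Polynomial ℤ => Q.coeff (j : ℕ)) hc
    simp only [Polynomial.finsetSum_coeff, Polynomial.coeff_C_mul, Polynomial.coeff_X_pow,
      Polynomial.coeff_zero] at h2
    rw [Finset.sum_eq_single j] at h2
    · simpa using h2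
    · intro i _ hij
      rw [if_neg (fun h => hij (Fin.ext h.symm)), mul_zero]
    · intro h
      exact absurd (mem_univ j) h) l₀ h0 hq
  have h2 := low_comb hq _ hlow x hxli
  have h3 : (fun i => ∑ j, (((x i j : UR hq) : ℝ) : ℂ) *
      (l₀ * Polynomial.aeval t (Polynomial.X ^ (j : ℕ) : Polynomial ℤ))) =
      fun i => l₀ * Polynomial.aeval t (P i) := by
    funext i
    rw [aeval_eq hq t (P i) (hPD i), mul_sum]
    refine sum_congr rfl fun j _ => ?_
    rw [map_pow, Polynomial.aeval_X]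
    ring
  rw [h3] at h2
  refine six hq (l₁ / l₀) (fun i => l₀ * Polynomial.aeval t (P i)) h2 (fun i => (y i).2.1) fun i => ?_
  have e : l₁ / l₀ * (l₀ * Polynomial.aeval t (P i)) = l₁ * Polynomial.aeval t (P i) := by
    field_simp
  rw [e]
  exact (y i).2.2

end Pool.Agent.T6.H3.LF
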