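import Pool.Agent.T6.H3.LF.Exps

/-!
# The exponents `π + ζ` and `π ζ` for which `n ^ (π + ζ)` and `n ^ (π ζ)` lie in a large algebraically closed field

Let `q` be any sequence of integers `≥ 2`, `K` the algebraically closed field of the approximable complex numbers
and `R ⊆ K` the field of the rationally approximable real numbers (`Pool.Agent.T6.H3.LF.Defs`). For an explicit
sequence `q₀` the field `K` has transcendence degree `2 ^ ℵ₀`. Of course `K` contains all algebraic numbers, and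
it does not contain `π` and `e`.

**Theorem.** Let `n ≥ 2` be an integer and `s` a complex number, for instance `π` or `e`. (1) The set of all `ζ`
in `K` for which `n ^ (s + ζ)` is in `K` is empty or a coset `ζ₀ + R` of `R`. (For `s = 0` this is the theorem of
Gelfond and Schneider with `K` in place of the field of the algebraic numbers and `R` in place of `ℚ`.) (2) For
`s ≠ 0` the set of all `ζ` in `K` for which `n ^ (s ζ)` is in `K` is `{0}` or a line `R ζ₀`. (3) For every `ζ` in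
`K` for which `n ^ (s + ζ)` is not in `K` the numbers `n ^ ((s + ζ) x_i)` are algebraically independent over `K` for
all `x_1, …, x_m` in `R` which are linearly independent over `ℚ`; so this holds for all `ζ` in `K` outside of one
coset of `R`. The same is true with any element `a ≠ 0` of `K` and any nonzero logarithm of `a` in place of `n`.

The proof: the quantitative Gelfond-Schneider theorem of the starting files (`Pool.Agent.R347.GS`) and their
dichotomy for the powers with exponents in `R` (`Pool.Agent.R347.LW.Dich`).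
-/

set_option autoImplicit false

namespace Pool.Agent.Results.MP_ee2255_nt.ShiftedExponents

open Pool.Agent.T6.H3.LF

/-- the statements (1), (2), (3) for the logarithm `l` of an element of `K` (`e ^ (s l)` is the power with the
exponent `s`) and the number `s` -/
def Good (K : IntermediateField ℚ ℂ) (R : IntermediateField ℚ ℝ) (l s : ℂ) : Prop :=
  ((∀ ζ ∈ K, Complex.exp ((s + ζ) * l) ∉ K) ∨
    ∃ ζ₀ ∈ K, ∀ ζ ∈ K, (Complex.exp ((s + ζ) * l) ∈ K ↔ ∃ x ∈ R, ζ = ζ₀ + ((x : ℝ) : ℂ))) ∧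
  (s ≠ 0 → (∀ ζ ∈ K, Complex.exp (s * ζ * l) ∈ K → ζ = 0) ∨
    ∃ ζ₀ ∈ K, ζ₀ ≠ 0 ∧ ∀ ζ ∈ K, (Complex.exp (s * ζ * l) ∈ K ↔ ∃ x ∈ R, ζ = ((x : ℝ) : ℂ) * ζ₀)) ∧
  (∀ ζ ∈ K, Complex.exp ((s + ζ) * l) ∉ K → ∀ (m : ℕ) (x : Fin m → R), LinearIndependent ℚ x →
    AlgebraicIndependent K fun i => Complex.exp ((s + ζ) * ((x i : ℝ) : ℂ) * l))

/-- **Main result.** -/
theorem result :
    (∀ q : ℕ → ℕ, (∀ k, 2 ≤ q k) →
      ∃ (K : IntermediateField ℚ ℂ) (R : IntermediateField ℚ ℝ), Fields q K R ∧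
        ((Real.pi : ℝ) : ℂ) ∉ K ∧ ((Real.exp 1 : ℝ) : ℂ) ∉ K ∧
        (∀ l : ℂ, l ≠ 0 → Complex.exp l ∈ K → ∀ s : ℂ, Good K R l s)) ∧
    (∀ n : ℕ, 2 ≤ n → ((Real.log n : ℝ) : ℂ) ≠ 0 ∧
      ∀ s : ℂ, (n : ℂ) ^ s = Complex.exp (s * ((Real.log n : ℝ) : ℂ))) ∧
    Explicit := by
  refine ⟨fun q hq => ⟨Pool.Agent.R347.LW.UK hq, Pool.Agent.R347.LW.UR hq, fields hq,
    Pool.Agent.R347.LW.pi_notMem hq, ?_, fun l hl h1 s => ⟨?_, fun hs => ?_, ?_⟩⟩, fun n hn => ?_, explicit⟩
  · have h1 := Pool.Agent.R347.SX.far_e q hq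
    rw [Complex.ofReal_exp, Complex.ofReal_one]
    exact h1
  · by_cases h : ∀ ζ ∈ Pool.Agent.R347.LW.UK hq, Complex.exp ((s + ζ) * l) ∉ Pool.Agent.R347.LW.UK hq
    · exact Or.inl h
    · push Not at h
      obtain ⟨ζ₀, h2, h3⟩ := h
      refine Or.inr ⟨ζ₀, h2, fun ζ hζ => ?_⟩
      have h4 := Pool.Agent.R347.GS.coset hq l s ζ₀ ζ hl h1 h2 hζ h3
      constructor
      · intro h5
        obtain ⟨x, hx, hxe⟩ := h4.1 h5
        exact ⟨x, hx, by rw [← hxe]; ring⟩
      · rintro ⟨x, hx, hxe⟩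
        exact h4.2 ⟨x, hx, by rw [hxe]; ring⟩
  · have h4 := Pool.Agent.R347.GS.line hq (s * l) (mul_ne_zero hs hl)
    have e1 : ∀ ζ : ℂ, s * ζ * l = ζ * (s * l) := fun ζ => by ring
    simp only [e1]
    rcases h4 with h | ⟨ζ₀, h5, h6, h7⟩
    · exact Or.inl h
    · exact Or.inr ⟨ζ₀, h5, h6, h7⟩
  · intro ζ _ h m x hx
    have h4 := Pool.Agent.R347.LW.dich hq ((s + ζ) * l) h m x hx
    have e1 : (fun i => Complex.exp ((s + ζ) * ((x i : ℝ) : ℂ) * l)) =
        fun i => Complex.exp (((x i : ℝ) : ℂ) * ((s + ζ) * l)) := by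
      funext i
      congr 1
      ring
    rw [e1]
    exact h4
  · refine ⟨?_, fun s => natCast_cpow (by omega) s⟩
    have h0 : Real.log n ≠ 0 := (Real.log_pos (by exact_mod_cast (by omega : 1 < n))).ne'
    exact_mod_cast h0

end Pool.Agent.Results.MP_ee2255_nt.ShiftedExponents
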